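import Mathlib

/-!
# The combinatorial core for the graphs `G_k`

`X i` is the colour of `x_i`, `P i j` says that the colour `j` occurs in the complete graph `G_i`,
and `u j` tells where the `j`-th vertex of the unique rainbow path lies.
-/

namespace Pool.Q185.GK

/-- The data that a colouring with a unique rainbow path induces. -/
structure Config (k : ℕ) (X : ZMod 7 → ℕ) (P : ZMod 7 → ℕ → Prop)
    (u : ℕ → ZMod 7 ⊕ ZMod 7) : Prop where
  hXk : ∀ i, X i < k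
  hX : ∀ i, X i ≠ X (i + 1)
  hP0 : ∀ i, ¬ P i (X i)
  hP1 : ∀ i, ¬ P i (X (i + 1))
  hP3 : ∀ i, ¬ P i (X (i + 3))
  hcard : ∀ i, ∀ a b c d, a < k → b < k → c < k → d < k → a ≠ b → a ≠ c → b ≠ c →
    d ≠ a → d ≠ b → d ≠ c → ¬ P i a → ¬ P i b → ¬ P i c → P i d
  hux : ∀ j i, j < k → u j = Sum.inl i → X i = j
  huP : ∀ j i, j < k → u j = Sum.inr i → P i j
  htopX : ∀ i, X i + 1 = k → u (k - 1) = Sum.inl i
  htopP : ∀ i, P i (k - 1) → u (k - 1) = Sum.inr i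
  hdx : ∀ j i, j + 1 < k → u (j + 1) = Sum.inl i →
    (P i j → u j = Sum.inr i) ∧ (P (i - 1) j → u j = Sum.inr (i - 1)) ∧
    (P (i - 3) j → u j = Sum.inr (i - 3)) ∧
    (X (i + 1) = j → u j = Sum.inl (i + 1)) ∧ (X (i - 1) = j → u j = Sum.inl (i - 1))
  hdP : ∀ j i, j + 1 < k → u (j + 1) = Sum.inr i →
    u j = Sum.inr i ∨ u j = Sum.inl i ∨ u j = Sum.inl (i + 1) ∨ u j = Sum.inl (i + 3)

theorem map_inl_iff (r i : ZMod 7) (z : ZMod 7 ⊕ ZMod 7) :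
    Sum.map (· - r) (· - r) z = Sum.inl i ↔ z = Sum.inl (i + r) := by
  cases z <;> simp [sub_eq_iff_eq_add]

theorem map_inr_iff (r i : ZMod 7) (z : ZMod 7 ⊕ ZMod 7) :
    Sum.map (· - r) (· - r) z = Sum.inr i ↔ z = Sum.inr (i + r) := by
  cases z <;> simp [sub_eq_iff_eq_add]

/-- Rotation. -/
theorem Config.rot {k : ℕ} {X : ZMod 7 → ℕ} {P : ZMod 7 → ℕ → Prop} {u : ℕ → ZMod 7 ⊕ ZMod 7}
    (h : Config k X P u) (r : ZMod 7) :
    Config k (fun i => X (i + r)) (fun i => P (i + r))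
      (fun j => Sum.map (· - r) (· - r) (u j)) where
  hXk i := h.hXk _
  hX i := by
    have := h.hX (i + r)
    rwa [add_right_comm] at this
  hP0 i := h.hP0 _
  hP1 i := by
    have := h.hP1 (i + r)
    rwa [add_right_comm] at this
  hP3 i := by
    have := h.hP3 (i + r)
    rwa [add_right_comm] at this
  hcard i := h.hcard _
  hux j i hj hu := h.hux j _ hj ((map_inl_iff _ _ _).mp hu)
  huP j i hj hu := h.huP j _ hj ((map_inr_iff _ _ _).mp hu)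
  htopX i hi := (map_inl_iff _ _ _).mpr (h.htopX _ hi)
  htopP i hi := (map_inr_iff _ _ _).mpr (h.htopP _ hi)
  hdx j i hj hu := by
    have h1 := h.hdx j (i + r) hj ((map_inl_iff _ _ _).mp hu)
    have e1 : i - 1 + r = i + r - 1 := by ring
    have e2 : i - 3 + r = i + r - 3 := by ring
    have e3 : i + 1 + r = i + r + 1 := by ring
    simp only [map_inl_iff, map_inr_iff, e1, e2, e3]
    exact h1
  hdP j i hj hu := by
    have h1 := h.hdP j (i + r) hj ((map_inr_iff _ _ _).mp hu)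
    have e3 : i + 1 + r = i + r + 1 := by ring
    have e4 : i + 3 + r = i + r + 3 := by ring
    simp only [map_inl_iff, map_inr_iff, e3, e4]
    exact h1

section

variable {k : ℕ} {X : ZMod 7 → ℕ} {P : ZMod 7 → ℕ → Prop} {u : ℕ → ZMod 7 ⊕ ZMod 7}

/-- A path which avoids the neighbours on the cycle stays in its complete graph. -/
theorem Config.stay (h : Config k X P u) (i : ZMod 7) (j0 : ℕ) (hj0 : j0 < k)
    (hu : u j0 = Sum.inr i)
    (hno : ∀ m, m + 1 < j0 → u (m + 1) ≠ Sum.inl i ∧ u (m + 1) ≠ Sum.inl (i + 1) ∧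
      u (m + 1) ≠ Sum.inl (i + 3)) :
    ∀ m, 1 ≤ m → m ≤ j0 → P i m := by
  have key : ∀ n, n < j0 → u (j0 - n) = Sum.inr i := by
    intro n
    induction n with
    | zero => intro _; simpa using hu
    | succ n ih =>
      intro hn
      have h1 := ih (by omega)
      have h2 : j0 - n = (j0 - (n + 1)) + 1 := by omega
      rw [h2] at h1
      have h3 := h.hdP _ _ (by omega) h1
      have h4 := hno (j0 - (n + 1) - 1) (by omega)
      have h5 : j0 - (n + 1) - 1 + 1 = j0 - (n + 1) := by omega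
      rw [h5] at h4
      rcases h3 with h3 | h3 | h3 | h3
      · exact h3
      · exact absurd h3 h4.1
      · exact absurd h3 h4.2.1
      · exact absurd h3 h4.2.2
  intro m hm hm2
  have h1 := key (j0 - m) (by omega)
  have h2 : j0 - (j0 - m) = m := by omega
  rw [h2] at h1
  exact h.huP m i (by omega) h1

theorem Config.hX' (h : Config k X P u) (i j : ZMod 7) (e : i + 1 = j) : X i ≠ X j :=
  e ▸ h.hX i

theorem Config.hP1' (h : Config k X P u) (i j : ZMod 7) (e : i + 1 = j) : ¬ P i (X j) :=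
  e ▸ h.hP1 i

theorem Config.hP3' (h : Config k X P u) (i j : ZMod 7) (e : i + 3 = j) : ¬ P i (X j) :=
  e ▸ h.hP3 i

theorem Config.hdx' (h : Config k X P u) (i a b c : ZMod 7) (ea : i - 1 = a) (eb : i - 3 = b)
    (ec : i + 1 = c) : ∀ j, j + 1 < k → u (j + 1) = Sum.inl i →
      (P i j → u j = Sum.inr i) ∧ (P a j → u j = Sum.inr a) ∧ (P b j → u j = Sum.inr b) ∧
      (X c = j → u j = Sum.inl c) ∧ (X a = j → u j = Sum.inl a) := by
  intro j hj hu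
  have h1 := h.hdx j i hj hu
  rw [ea, eb, ec] at h1
  exact h1

theorem Config.stay' (h : Config k X P u) (i i1 i3 : ZMod 7) (e1 : i + 1 = i1) (e3 : i + 3 = i3)
    (j0 : ℕ) (hj0 : j0 < k) (hu : u j0 = Sum.inr i)
    (hno : ∀ m, m + 1 < j0 → u (m + 1) ≠ Sum.inl i ∧ u (m + 1) ≠ Sum.inl i1 ∧
      u (m + 1) ≠ Sum.inl i3) :
    ∀ m, 1 ≤ m → m ≤ j0 → P i m := by
  subst e1 e3
  exact h.stay i j0 hj0 hu hno

theorem clash {z a b : ZMod 7 ⊕ ZMod 7} (h1 : z = a) (h2 : z = b) (h3 : a ≠ b) : False :=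
  h3 (h1.symm.trans h2)

/-- Two of the three complete graphs at `x_i` cannot both contain the colour below. -/
theorem Config.pat1 (hk : 4 ≤ k) (h : Config k X P u) (hu : u (k - 1) = Sum.inl 0) (a b : ℕ)
    (x0 : X 0 = k - 1)
    (x1 : X 1 = a) (x2 : X 2 = b) (x3 : X 3 = a) (x4 : X 4 = b) (x5 : X 5 = a) (x6 : X 6 = b)
    (hab : a ≠ b) (ha : a + 1 < k) (hb : b + 1 < k)
    (p1 : ∀ d, d + 1 < k → d ≠ a → d ≠ b → P 1 d)
    (p2 : ∀ d, d + 1 < k → d ≠ a → d ≠ b → P 2 d)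
    (p3 : ∀ d, d + 1 < k → d ≠ a → d ≠ b → P 3 d)
    (p4 : ∀ d, d + 1 < k → d ≠ a → d ≠ b → P 4 d)
    (p5 : ∀ d, d + 1 < k → d ≠ a → d ≠ b → P 5 d)
    (m4a : ¬ P 4 a) (m4b : ¬ P 4 b) : False := by
  have no0 : ∀ m, m + 1 < k - 1 → u (m + 1) ≠ Sum.inl 0 := by
    intro m hm h1
    have h2 := h.hux _ _ (by omega) h1
    rw [x0] at h2
    omega
  have no4 : ∀ m, m + 1 < k → u (m + 1) ≠ Sum.inl 4 := by
    intro m hm h1
    obtain ⟨q1, q2, q3, q4, q5⟩ := h.hdx' 4 3 1 5 (by decide) (by decide) (by decide) m hm h1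
    have h2 := h.hux _ _ hm h1
    rw [x4] at h2
    rw [x5] at q4
    rw [x3] at q5
    by_cases hm1 : a = m
    · exact clash (q4 hm1) (q5 hm1) (by decide)
    · exact clash (q2 (p3 m hm (Ne.symm hm1) (by omega)))
        (q3 (p1 m hm (Ne.symm hm1) (by omega))) (by decide)
  have no5 : ∀ m, m + 1 < k → u (m + 1) ≠ Sum.inl 5 := by
    intro m hm h1
    obtain ⟨q1, q2, q3, q4, q5⟩ := h.hdx' 5 4 2 6 (by decide) (by decide) (by decide) m hm h1
    have h2 := h.hux _ _ hm h1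
    rw [x5] at h2
    rw [x6] at q4
    rw [x4] at q5
    by_cases hm1 : b = m
    · exact clash (q4 hm1) (q5 hm1) (by decide)
    · exact clash (q2 (p4 m hm (by omega) (Ne.symm hm1)))
        (q3 (p2 m hm (by omega) (Ne.symm hm1))) (by decide)
  have no2 : ∀ m, m + 1 < k → u (m + 1) ≠ Sum.inl 2 := by
    intro m hm h1
    obtain ⟨q1, q2, q3, q4, q5⟩ := h.hdx' 2 1 6 3 (by decide) (by decide) (by decide) m hm h1
    have h2 := h.hux _ _ hm h1
    rw [x2] at h2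
    rw [x3] at q4
    rw [x1] at q5
    by_cases hm1 : a = m
    · exact clash (q4 hm1) (q5 hm1) (by decide)
    · exact clash (q1 (p2 m hm (Ne.symm hm1) (by omega)))
        (q2 (p1 m hm (Ne.symm hm1) (by omega))) (by decide)
  have no1 : ∀ m, m + 2 < k → u (m + 2) ≠ Sum.inl 1 := by
    intro m hm h1
    obtain ⟨q1, q2, q3, q4, q5⟩ := h.hdx' 1 0 5 2 (by decide) (by decide) (by decide) (m + 1) hm h1
    have h2 := h.hux _ _ hm h1
    rw [x1] at h2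
    rw [x2] at q4
    by_cases hm1 : b = m + 1
    · exact no2 m (by omega) (q4 hm1)
    · exact clash (q1 (p1 (m + 1) hm (by omega) (Ne.symm hm1)))
        (q3 (p5 (m + 1) hm (by omega) (Ne.symm hm1))) (by decide)
  have no6 : ∀ m, m + 2 < k → u (m + 2) ≠ Sum.inl 6 := by
    intro m hm h1
    obtain ⟨q1, q2, q3, q4, q5⟩ := h.hdx' 6 5 3 0 (by decide) (by decide) (by decide) (m + 1) hm h1
    have h2 := h.hux _ _ hm h1
    rw [x6] at h2
    rw [x5] at q5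
    by_cases hm1 : a = m + 1
    · exact no5 m (by omega) (q5 hm1)
    · exact clash (q2 (p5 (m + 1) hm (Ne.symm hm1) (by omega)))
        (q3 (p3 (m + 1) hm (Ne.symm hm1) (by omega))) (by decide)
  obtain ⟨s0, s6, s4, sx1, sx6⟩ := h.hdx' 0 6 4 1 (by decide) (by decide) (by decide) (k - 2)
    (by omega) (by rw [show k - 2 + 1 = k - 1 by omega]; exact hu)
  have hk4 : k - 2 = (k - 4) + 2 := by omega
  have ne1 : a ≠ k - 2 := by
    intro h1
    have h2 := sx1 (x1.trans h1)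
    rw [hk4] at h2
    exact no1 _ (by omega) h2
  have ne2 : b ≠ k - 2 := by
    intro h1
    have h2 := sx6 (x6.trans h1)
    rw [hk4] at h2
    exact no6 _ (by omega) h2
  have hu4 := s4 (p4 (k - 2) (by omega) ne1.symm ne2.symm)
  have hst := h.stay' 4 5 0 (by decide) (by decide) (k - 2) (by omega) hu4 (fun m hm =>
    ⟨no4 m (by omega), no5 m (by omega), no0 m (by omega)⟩)
  rcases Nat.eq_zero_or_pos a with h0 | h0
  · exact m4b (hst b (by omega) (by omega))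
  · exact m4a (hst a h0 (by omega))

theorem Config.pat2 (hk : 4 ≤ k) (h : Config k X P u) (hu : u (k - 1) = Sum.inl 0) (a b c : ℕ)
    (x0 : X 0 = k - 1)
    (x1 : X 1 = a) (x2 : X 2 = b) (x3 : X 3 = c) (x4 : X 4 = a) (x5 : X 5 = b) (x6 : X 6 = a)
    (hab : a ≠ b) (hbc : b ≠ c) (hac : a ≠ c) (ha : a + 1 < k) (hb : b + 1 < k) (hc : c + 1 < k)
    (p1 : ∀ d, d + 1 < k → d ≠ a → d ≠ b → P 1 d)
    (p2 : ∀ d, d + 1 < k → d ≠ b → d ≠ c → P 2 d)
    (p3 : ∀ d, d + 1 < k → d ≠ c → d ≠ a → P 3 d)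
    (p4 : ∀ d, d + 1 < k → d ≠ a → d ≠ b → P 4 d)
    (p5 : ∀ d, d + 1 < k → d ≠ b → d ≠ a → P 5 d)
    (p6 : ∀ d, d + 1 < k → d ≠ a → d ≠ b → P 6 d)
    (p0 : ∀ d, d + 1 < k → d ≠ a → d ≠ c → P 0 d)
    (m0a : ¬ P 0 a) (m0c : ¬ P 0 c) : False := by
  have no0 : ∀ m, m + 1 < k - 1 → u (m + 1) ≠ Sum.inl 0 := by
    intro m hm h1
    have h2 := h.hux _ _ (by omega) h1
    rw [x0] at h2
    omega
  have no1 : ∀ m, m + 1 < k → u (m + 1) ≠ Sum.inl 1 := by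
    intro m hm h1
    obtain ⟨q1, q2, q3, q4, q5⟩ := h.hdx' 1 0 5 2 (by decide) (by decide) (by decide) m hm h1
    have h2 := h.hux _ _ hm h1
    rw [x1] at h2
    rw [x2] at q4
    by_cases hm1 : b = m
    · exact clash (q4 hm1) (q2 (p0 m hm (by omega) (fun h3 => hbc (hm1.trans h3)))) (by decide)
    · exact clash (q1 (p1 m hm (by omega) (Ne.symm hm1)))
        (q3 (p5 m hm (Ne.symm hm1) (by omega))) (by decide)
  have no3 : ∀ m, m + 1 < k → u (m + 1) ≠ Sum.inl 3 := by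
    intro m hm h1
    obtain ⟨q1, q2, q3, q4, q5⟩ := h.hdx' 3 2 0 4 (by decide) (by decide) (by decide) m hm h1
    have h2 := h.hux _ _ hm h1
    rw [x3] at h2
    rw [x4] at q4
    by_cases hm1 : a = m
    · exact clash (q4 hm1) (q2 (p2 m hm (fun h3 => hab (hm1.trans h3)) (by omega))) (by decide)
    · exact clash (q1 (p3 m hm (by omega) (Ne.symm hm1)))
        (q3 (p0 m hm (Ne.symm hm1) (by omega))) (by decide)
  obtain ⟨s0, s6, s4, sx1, sx6⟩ := h.hdx' 0 6 4 1 (by decide) (by decide) (by decide) (k - 2)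
    (by omega) (by rw [show k - 2 + 1 = k - 1 by omega]; exact hu)
  have ne1 : a ≠ k - 2 := by
    intro h1
    exact clash (sx1 (x1.trans h1)) (sx6 (x6.trans h1)) (by decide)
  have e2 : b = k - 2 := by
    by_contra hne
    exact clash (s6 (p6 (k - 2) (by omega) ne1.symm (Ne.symm hne)))
      (s4 (p4 (k - 2) (by omega) ne1.symm (Ne.symm hne))) (by decide)
  have hu0 := s0 (p0 (k - 2) (by omega) ne1.symm (fun h3 => hbc (e2.trans h3)))
  have hst := h.stay' 0 1 3 (by decide) (by decide) (k - 2) (by omega) hu0 (fun m hm =>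
    ⟨no0 m (by omega), no1 m (by omega), no3 m (by omega)⟩)
  rcases Nat.eq_zero_or_pos a with h0 | h0
  · exact m0c (hst c (by omega) (by omega))
  · exact m0a (hst a h0 (by omega))

theorem Config.pat3 (hk : 4 ≤ k) (h : Config k X P u) (hu : u (k - 1) = Sum.inl 0) (a b c : ℕ)
    (x0 : X 0 = k - 1)
    (x1 : X 1 = a) (x2 : X 2 = b) (x3 : X 3 = c) (x4 : X 4 = a) (x5 : X 5 = c) (x6 : X 6 = a)
    (hab : a ≠ b) (hbc : b ≠ c) (hac : a ≠ c) (ha : a + 1 < k) (hb : b + 1 < k) (hc : c + 1 < k)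
    (p1 : ∀ d, d + 1 < k → d ≠ a → d ≠ b → P 1 d)
    (p2 : ∀ d, d + 1 < k → d ≠ b → d ≠ c → P 2 d)
    (p3 : ∀ d, d + 1 < k → d ≠ c → d ≠ a → P 3 d)
    (p4 : ∀ d, d + 1 < k → d ≠ a → d ≠ c → P 4 d)
    (p5 : ∀ d, d + 1 < k → d ≠ c → d ≠ a → P 5 d)
    (p6 : ∀ d, d + 1 < k → d ≠ a → d ≠ b → P 6 d)
    (p0 : ∀ d, d + 1 < k → d ≠ a → d ≠ c → P 0 d)
    (m6a : ¬ P 6 a) (m6b : ¬ P 6 b) : False := by
  have no0 : ∀ m, m + 1 < k - 1 → u (m + 1) ≠ Sum.inl 0 := by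
    intro m hm h1
    have h2 := h.hux _ _ (by omega) h1
    rw [x0] at h2
    omega
  have no6 : ∀ m, m + 1 < k → u (m + 1) ≠ Sum.inl 6 := by
    intro m hm h1
    obtain ⟨q1, q2, q3, q4, q5⟩ := h.hdx' 6 5 3 0 (by decide) (by decide) (by decide) m hm h1
    have h2 := h.hux _ _ hm h1
    rw [x6] at h2
    rw [x5] at q5
    by_cases hm1 : c = m
    · exact clash (q5 hm1) (q1 (p6 m hm (by omega) (fun h3 => hbc (h3.symm.trans hm1.symm))))
        (by decide)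
    · exact clash (q2 (p5 m hm (Ne.symm hm1) (by omega)))
        (q3 (p3 m hm (Ne.symm hm1) (by omega))) (by decide)
  have no2 : ∀ m, m + 1 < k → u (m + 1) ≠ Sum.inl 2 := by
    intro m hm h1
    obtain ⟨q1, q2, q3, q4, q5⟩ := h.hdx' 2 1 6 3 (by decide) (by decide) (by decide) m hm h1
    have h2 := h.hux _ _ hm h1
    rw [x2] at h2
    rw [x1] at q5
    by_cases hm1 : a = m
    · exact clash (q5 hm1) (q1 (p2 m hm (by omega) (fun h3 => hac (hm1.trans h3)))) (by decide)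
    · exact clash (q2 (p1 m hm (Ne.symm hm1) (by omega)))
        (q3 (p6 m hm (Ne.symm hm1) (by omega))) (by decide)
  obtain ⟨s0, s6, s4, sx1, sx6⟩ := h.hdx' 0 6 4 1 (by decide) (by decide) (by decide) (k - 2)
    (by omega) (by rw [show k - 2 + 1 = k - 1 by omega]; exact hu)
  have ne1 : a ≠ k - 2 := by
    intro h1
    exact clash (sx1 (x1.trans h1)) (sx6 (x6.trans h1)) (by decide)
  have e2 : c = k - 2 := by
    by_contra hne
    exact clash (s0 (p0 (k - 2) (by omega) ne1.symm (Ne.symm hne)))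
      (s4 (p4 (k - 2) (by omega) ne1.symm (Ne.symm hne))) (by decide)
  have hu6 := s6 (p6 (k - 2) (by omega) ne1.symm (fun h3 => hbc (h3.symm.trans e2.symm)))
  have hst := h.stay' 6 0 2 (by decide) (by decide) (k - 2) (by omega) hu6 (fun m hm =>
    ⟨no6 m (by omega), no0 m (by omega), no2 m (by omega)⟩)
  rcases Nat.eq_zero_or_pos a with h0 | h0
  · exact m6b (hst b (by omega) (by omega))
  · exact m6a (hst a h0 (by omega))

theorem Config.pat4 (hk : 4 ≤ k) (h : Config k X P u) (hu : u (k - 1) = Sum.inr 0) (a b c : ℕ)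
    (x0 : X 0 = b)
    (x1 : X 1 = a) (x2 : X 2 = b) (x3 : X 3 = c) (x4 : X 4 = a) (x6 : X 6 = a)
    (hab : a ≠ b) (hbc : b ≠ c) (hac : a ≠ c) (ha : a + 1 < k) (hb : b + 1 < k) (hc : c + 1 < k)
    (p1 : ∀ d, d + 1 < k → d ≠ a → d ≠ b → P 1 d)
    (p2 : ∀ d, d + 1 < k → d ≠ b → d ≠ c → P 2 d)
    (p3 : ∀ d, d + 1 < k → d ≠ c → d ≠ a → P 3 d)
    (p4 : ∀ d, d + 1 < k → d ≠ a → d ≠ b → P 4 d)
    (p5 : ∀ d, d + 1 < k → d ≠ b → d ≠ a → P 5 d)
    (p6 : ∀ d, d + 1 < k → d ≠ a → d ≠ b → P 6 d)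
    (m0a : ¬ P 0 a) (m0c : ¬ P 0 c) : False := by
  have no1 : ∀ m, m + 1 < k → u (m + 1) ≠ Sum.inl 1 := by
    intro m hm h1
    obtain ⟨q1, q2, q3, q4, q5⟩ := h.hdx' 1 0 5 2 (by decide) (by decide) (by decide) m hm h1
    have h2 := h.hux _ _ hm h1
    rw [x1] at h2
    rw [x2] at q4
    rw [x0] at q5
    by_cases hm1 : b = m
    · exact clash (q4 hm1) (q5 hm1) (by decide)
    · exact clash (q1 (p1 m hm (by omega) (Ne.symm hm1)))
        (q3 (p5 m hm (Ne.symm hm1) (by omega))) (by decide)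
  have no0 : ∀ m, m + 1 < k → u (m + 1) ≠ Sum.inl 0 := by
    intro m hm h1
    obtain ⟨q1, q2, q3, q4, q5⟩ := h.hdx' 0 6 4 1 (by decide) (by decide) (by decide) m hm h1
    have h2 := h.hux _ _ hm h1
    rw [x0] at h2
    rw [x1] at q4
    rw [x6] at q5
    by_cases hm1 : a = m
    · exact clash (q4 hm1) (q5 hm1) (by decide)
    · exact clash (q2 (p6 m hm (Ne.symm hm1) (by omega)))
        (q3 (p4 m hm (Ne.symm hm1) (by omega))) (by decide)
  have no3 : ∀ m, m + 1 < k → u (m + 1) ≠ Sum.inl 3 := by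
    intro m hm h1
    obtain ⟨q1, q2, q3, q4, q5⟩ := h.hdx' 3 2 0 4 (by decide) (by decide) (by decide) m hm h1
    have h2 := h.hux _ _ hm h1
    rw [x3] at h2
    rw [x4] at q4
    rw [x2] at q5
    by_cases hm1 : a = m
    · exact clash (q4 hm1) (q2 (p2 m hm (fun h3 => hab (hm1.trans h3)) (by omega))) (by decide)
    · by_cases hm2 : b = m
      · exact clash (q5 hm2) (q1 (p3 m hm (by omega) (Ne.symm hm1))) (by decide)
      · exact clash (q1 (p3 m hm (by omega) (Ne.symm hm1)))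
          (q2 (p2 m hm (Ne.symm hm2) (by omega))) (by decide)
  have hst := h.stay' 0 1 3 (by decide) (by decide) (k - 1) (by omega) hu (fun m hm =>
    ⟨no0 m (by omega), no1 m (by omega), no3 m (by omega)⟩)
  rcases Nat.eq_zero_or_pos a with h0 | h0
  · exact m0c (hst c (by omega) (by omega))
  · exact m0a (hst a h0 (by omega))

theorem Config.two (h : Config k X P u) (hk : 4 ≤ k) (i : ZMod 7) (hPT : ¬ P i (k - 1)) (a b c : ℕ)
    (ha : a + 1 < k) (hb : b + 1 < k) (hc : c + 1 < k) (h1 : ¬ P i a) (h2 : ¬ P i b)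
    (h3 : ¬ P i c) (hab : a ≠ b) : c = a ∨ c = b := by
  by_contra hcon
  push Not at hcon
  exact hPT (h.hcard i a b c (k - 1) (by omega) (by omega) (by omega) (by omega) hab
    hcon.1.symm hcon.2.symm (by omega) (by omega) (by omega) h1 h2 h3)

theorem Config.pres (h : Config k X P u) (hk : 4 ≤ k) (i : ZMod 7) (hPT : ¬ P i (k - 1)) (a b : ℕ)
    (ha : a + 1 < k) (hb : b + 1 < k) (h1 : ¬ P i a) (h2 : ¬ P i b) (hab : a ≠ b) :
    ∀ d, d + 1 < k → d ≠ a → d ≠ b → P i d := by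
  intro d hd hda hdb
  exact h.hcard i a b (k - 1) d (by omega) (by omega) (by omega) (by omega) hab
    (by omega) (by omega) hda hdb (by omega) h1 h2 hPT

/-- Top vertex on the cycle: impossible. -/
theorem Config.caseA (hk : 4 ≤ k) (h : Config k X P u) (hu : u (k - 1) = Sum.inl 0) : False := by
  have hT : X 0 = k - 1 := h.hux _ _ (by omega) hu
  have hXT : ∀ i, i ≠ 0 → X i + 1 < k := by
    intro i hi
    have h0 := h.hXk i
    by_contra h1
    have h2 := h.htopX i (by omega)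
    rw [hu] at h2
    exact hi (Sum.inl.inj h2).symm
  have hPT : ∀ i, ¬ P i (k - 1) := by
    intro i hi
    have h2 := h.htopP i hi
    rw [hu] at h2
    exact absurd h2 (by simp)
  have t1 := hXT 1 (by decide)
  have t2 := hXT 2 (by decide)
  have t3 := hXT 3 (by decide)
  have t4 := hXT 4 (by decide)
  have t5 := hXT 5 (by decide)
  have t6 := hXT 6 (by decide)
  have n12 := h.hX' 1 2 (by decide)
  have n23 := h.hX' 2 3 (by decide)
  have n34 := h.hX' 3 4 (by decide)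
  have n45 := h.hX' 4 5 (by decide)
  have n56 := h.hX' 5 6 (by decide)
  have m4a := h.hP0 4
  have m4b := h.hP1' 4 5 (by decide)
  have m6a := h.hP0 6
  have m6c := h.hP3' 6 2 (by decide)
  have m0b := h.hP1' 0 1 (by decide)
  have m0c := h.hP3' 0 3 (by decide)
  have c1 := h.two hk 1 (hPT 1) (X 1) (X 2) (X 4) t1 t2 t4 (h.hP0 1) (h.hP1' 1 2 (by decide))
    (h.hP3' 1 4 (by decide)) n12
  have c2 := h.two hk 2 (hPT 2) (X 2) (X 3) (X 5) t2 t3 t5 (h.hP0 2) (h.hP1' 2 3 (by decide))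
    (h.hP3' 2 5 (by decide)) n23
  have c3 := h.two hk 3 (hPT 3) (X 3) (X 4) (X 6) t3 t4 t6 (h.hP0 3) (h.hP1' 3 4 (by decide))
    (h.hP3' 3 6 (by decide)) n34
  have c5 := h.two hk 5 (hPT 5) (X 5) (X 6) (X 1) t5 t6 t1 (h.hP0 5) (h.hP1' 5 6 (by decide))
    (h.hP3' 5 1 (by decide)) n56
  have p1 := h.pres hk 1 (hPT 1) (X 1) (X 2) t1 t2 (h.hP0 1) (h.hP1' 1 2 (by decide)) n12
  have p2 := h.pres hk 2 (hPT 2) (X 2) (X 3) t2 t3 (h.hP0 2) (h.hP1' 2 3 (by decide)) n23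
  have p3 := h.pres hk 3 (hPT 3) (X 3) (X 4) t3 t4 (h.hP0 3) (h.hP1' 3 4 (by decide)) n34
  have p4 := h.pres hk 4 (hPT 4) (X 4) (X 5) t4 t5 (h.hP0 4) (h.hP1' 4 5 (by decide)) n45
  have p5 := h.pres hk 5 (hPT 5) (X 5) (X 6) t5 t6 (h.hP0 5) (h.hP1' 5 6 (by decide)) n56
  have p6 : X 6 ≠ X 2 → ∀ d, d + 1 < k → d ≠ X 6 → d ≠ X 2 → P 6 d := fun hne =>
    h.pres hk 6 (hPT 6) (X 6) (X 2) t6 t2 (h.hP0 6) (h.hP3' 6 2 (by decide)) hne
  have p0 : X 1 ≠ X 3 → ∀ d, d + 1 < k → d ≠ X 1 → d ≠ X 3 → P 0 d := fun hne =>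
    h.pres hk 0 (hPT 0) (X 1) (X 3) t1 t3 m0b m0c hne
  have hcl : ∀ x1 x2 x3 x4 x5 x6 : ℕ, x1 ≠ x2 → x2 ≠ x3 → x3 ≠ x4 → x4 ≠ x5 → x5 ≠ x6 →
      (x4 = x1 ∨ x4 = x2) → (x5 = x2 ∨ x5 = x3) → (x6 = x3 ∨ x6 = x4) → (x1 = x5 ∨ x1 = x6) →
      (x3 = x1 ∧ x5 = x1 ∧ x4 = x2 ∧ x6 = x2) ∨ (x4 = x1 ∧ x6 = x1 ∧ x5 = x2 ∧ x1 ≠ x3) ∨
      (x4 = x1 ∧ x6 = x1 ∧ x5 = x3 ∧ x1 ≠ x3) := by
    clear * -
    intro x1 x2 x3 x4 x5 x6 h1 h2 h3 h4 h5 h6 h7 h8 h9
    grind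
  rcases hcl (X 1) (X 2) (X 3) (X 4) (X 5) (X 6) n12 n23 n34 n45 n56 c1 c2 c3 c5 with
    ⟨e3, e5, e4, e6⟩ | ⟨e4, e6, e5, e3⟩ | ⟨e4, e6, e5, e3⟩
  · rw [e3] at p2 p3
    rw [e4] at p3 p4 m4a
    rw [e5] at p4 p5 m4b
    rw [e6] at p5
    exact h.pat1 hk hu (X 1) (X 2) hT rfl rfl e3 e4 e5 e6 n12 t1 t2 p1
      (fun d h1 h2 h3 => p2 d h1 h3 h2) p3 (fun d h1 h2 h3 => p4 d h1 h3 h2) p5 m4b m4a
  · rw [e4] at p3 p4
    rw [e5] at p4 p5
    rw [e6] at p5 p6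
    exact h.pat2 hk hu (X 1) (X 2) (X 3) hT rfl rfl rfl e4 e5 e6 n12 n23 e3 t1 t2 t3 p1 p2 p3 p4 p5
      (p6 n12) (p0 e3) m0b m0c
  · rw [e4] at p3 p4
    rw [e5] at p4 p5
    rw [e6] at p5 p6 m6a
    exact h.pat3 hk hu (X 1) (X 2) (X 3) hT rfl rfl rfl e4 e5 e6 n12 n23 e3 t1 t2 t3 p1 p2 p3 p4 p5
      (p6 n12) (p0 e3) m6a m6c

/-- Top vertex in a complete graph: impossible. -/
theorem Config.caseB (hk : 4 ≤ k) (h : Config k X P u) (hu : u (k - 1) = Sum.inr 0) : False := by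
  have hXT : ∀ i, X i + 1 < k := by
    intro i
    have h0 := h.hXk i
    by_contra h1
    have h2 := h.htopX i (by omega)
    rw [hu] at h2
    exact absurd h2 (by simp)
  have hPT : ∀ i, i ≠ 0 → ¬ P i (k - 1) := by
    intro i hi0 hi
    have h2 := h.htopP i hi
    rw [hu] at h2
    exact hi0 (Sum.inr.inj h2).symm
  have n60 := h.hX' 6 0 (by decide)
  have n01 := h.hX' 0 1 (by decide)
  have n12 := h.hX' 1 2 (by decide)
  have n23 := h.hX' 2 3 (by decide)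
  have n34 := h.hX' 3 4 (by decide)
  have n45 := h.hX' 4 5 (by decide)
  have n56 := h.hX' 5 6 (by decide)
  have q1 := hPT 1 (by decide)
  have q2 := hPT 2 (by decide)
  have q3 := hPT 3 (by decide)
  have q4 := hPT 4 (by decide)
  have q5 := hPT 5 (by decide)
  have q6 := hPT 6 (by decide)
  have c1 := h.two hk 1 q1 (X 1) (X 2) (X 4) (hXT _) (hXT _) (hXT _) (h.hP0 1)
    (h.hP1' 1 2 (by decide)) (h.hP3' 1 4 (by decide)) n12
  have c2 := h.two hk 2 q2 (X 2) (X 3) (X 5) (hXT _) (hXT _) (hXT _) (h.hP0 2)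
    (h.hP1' 2 3 (by decide)) (h.hP3' 2 5 (by decide)) n23
  have c3 := h.two hk 3 q3 (X 3) (X 4) (X 6) (hXT _) (hXT _) (hXT _) (h.hP0 3)
    (h.hP1' 3 4 (by decide)) (h.hP3' 3 6 (by decide)) n34
  have c4 := h.two hk 4 q4 (X 4) (X 5) (X 0) (hXT _) (hXT _) (hXT _) (h.hP0 4)
    (h.hP1' 4 5 (by decide)) (h.hP3' 4 0 (by decide)) n45
  have c5 := h.two hk 5 q5 (X 5) (X 6) (X 1) (hXT _) (hXT _) (hXT _) (h.hP0 5)
    (h.hP1' 5 6 (by decide)) (h.hP3' 5 1 (by decide)) n56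
  have c6 := h.two hk 6 q6 (X 6) (X 0) (X 2) (hXT _) (hXT _) (hXT _) (h.hP0 6)
    (h.hP1' 6 0 (by decide)) (h.hP3' 6 2 (by decide)) n60
  have p1 := h.pres hk 1 q1 (X 1) (X 2) (hXT _) (hXT _) (h.hP0 1) (h.hP1' 1 2 (by decide)) n12
  have p2 := h.pres hk 2 q2 (X 2) (X 3) (hXT _) (hXT _) (h.hP0 2) (h.hP1' 2 3 (by decide)) n23
  have p3 := h.pres hk 3 q3 (X 3) (X 4) (hXT _) (hXT _) (h.hP0 3) (h.hP1' 3 4 (by decide)) n34
  have p4 := h.pres hk 4 q4 (X 4) (X 5) (hXT _) (hXT _) (h.hP0 4) (h.hP1' 4 5 (by decide)) n45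
  have p5 := h.pres hk 5 q5 (X 5) (X 6) (hXT _) (hXT _) (h.hP0 5) (h.hP1' 5 6 (by decide)) n56
  have p6 := h.pres hk 6 q6 (X 6) (X 0) (hXT _) (hXT _) (h.hP0 6) (h.hP1' 6 0 (by decide)) n60
  have hcl : ∀ x0 x1 x2 x3 x4 x5 x6 : ℕ, x6 ≠ x0 → x0 ≠ x1 → x1 ≠ x2 → x2 ≠ x3 → x3 ≠ x4 →
      x4 ≠ x5 → x5 ≠ x6 →
      (x4 = x1 ∨ x4 = x2) → (x5 = x2 ∨ x5 = x3) → (x6 = x3 ∨ x6 = x4) → (x0 = x4 ∨ x0 = x5) →
      (x1 = x5 ∨ x1 = x6) → (x2 = x6 ∨ x2 = x0) →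
      (x4 = x1 ∧ x6 = x1 ∧ x5 = x2 ∧ x0 = x2 ∧ x1 ≠ x3) := by
    clear * -
    intro x0 x1 x2 x3 x4 x5 x6 a1 a2 h1 h2 h3 h4 h5 h6 h7 h8 h9 h10 h11
    grind
  obtain ⟨e4, e6, e5, e0, e3⟩ := hcl (X 0) (X 1) (X 2) (X 3) (X 4) (X 5) (X 6) n60 n01 n12 n23 n34
    n45 n56 c1 c2 c3 c4 c5 c6
  rw [e4] at p3 p4
  rw [e5] at p4 p5
  rw [e6] at p5 p6
  rw [e0] at p6
  exact h.pat4 hk hu (X 1) (X 2) (X 3) e0 rfl rfl rfl e4 e6 n12 n23 e3 (hXT _) (hXT _) (hXT _)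
    p1 p2 p3 p4 p5 p6 (h.hP1' 0 1 (by decide)) (h.hP3' 0 3 (by decide))

/-- There is no such configuration. -/
theorem Config.false (hk : 4 ≤ k) (h : Config k X P u) : False := by
  rcases hz : u (k - 1) with i | i
  · refine (h.rot i).caseA hk ?_
    rw [map_inl_iff, zero_add]
    exact hz
  · refine (h.rot i).caseB hk ?_
    rw [map_inr_iff, zero_add]
    exact hz

end

end Pool.Q185.GK
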