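import Mathlib

/-!
# Orientations with exactly one directed path on `k` vertices

If an orientation `D` of a finite graph `G` which is not `(k-1)`-colourable contains exactly one
directed path on `k` vertices, then `G` has a proper colouring `c` with the colours `0, …, k - 1`
and a path `s 0, …, s (k - 1)` with `c (s j) = j` such that `s (k - 1)` is the only vertex of
colour `k - 1` and `s j` is the only neighbour of `s (j + 1)` of colour `j`.

Proof: take a maximal acyclic set `A` of arcs of `D` and the levels with respect to `A`.
-/

namespace Pool.Q185.GK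

/-- `D` is an orientation of the graph `G`: every edge gets exactly one of its two directions. -/
def IsOrientation {V : Type*} (G : SimpleGraph V) (D : V → V → Prop) : Prop :=
  (∀ u v, D u v → G.Adj u v) ∧ ∀ u v, G.Adj u v → (D u v ∧ ¬ D v u) ∨ (D v u ∧ ¬ D u v)

/-- `p 0, …, p (n - 1)` is a directed path (on `n` distinct vertices) of `D`. -/
def IsDirPath {V : Type*} (D : V → V → Prop) (n : ℕ) (p : Fin n → V) : Prop :=
  Function.Injective p ∧ ∀ (i : ℕ) (h : i + 1 < n), D (p ⟨i, Nat.lt_of_succ_lt h⟩) (p ⟨i + 1, h⟩)

section

variable {V : Type*} [Fintype V] [DecidableEq V]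

/-- A level function for a maximal acyclic subdigraph. -/
theorem exists_levels (G : SimpleGraph V) (D : V → V → Prop) (hD : IsOrientation G D) :
    ∃ l : V → ℕ, (∀ u v, G.Adj u v → l u ≠ l v) ∧
      (∀ u v, G.Adj u v → l v = l u + 1 → D u v) ∧
      (∀ v m, l v = m + 1 → ∃ u, D u v ∧ l u = m) := by
  classical
  let S : Finset (Finset (V × V)) := Finset.univ.filter (fun A =>
    (∀ e ∈ A, D e.1 e.2) ∧ ∃ h : V → ℕ, ∀ e ∈ A, h e.1 < h e.2)
  have hS : S.Nonempty := ⟨∅, by simp [S]⟩
  obtain ⟨A, hAS, hmax⟩ := Finset.exists_max_image S Finset.card hS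
  have hA : (∀ e ∈ A, D e.1 e.2) ∧ ∃ h : V → ℕ, ∀ e ∈ A, h e.1 < h e.2 := by
    simpa [S] using hAS
  obtain ⟨hAD, h0, hh0⟩ := hA
  -- minimal level function
  have hex : ∃ n : ℕ, ∃ h : V → ℕ, (∀ e ∈ A, h e.1 < h e.2) ∧ ∑ v, h v = n := ⟨_, h0, hh0, rfl⟩
  obtain ⟨l, hl, hsum⟩ := Nat.find_spec hex
  have hmin : ∀ h : V → ℕ, (∀ e ∈ A, h e.1 < h e.2) → ∑ v, l v ≤ ∑ v, h v := by
    intro h hh
    rw [hsum]
    exact Nat.find_min' hex ⟨h, hh, rfl⟩
  -- every vertex of positive level has an in-neighbour just below
  have hpred : ∀ v m, l v = m + 1 → ∃ u, (u, v) ∈ A ∧ l u = m := by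
    intro v m hv
    by_contra hcon
    push Not at hcon
    have h1 : ∀ e ∈ A, (Function.update l v m) e.1 < (Function.update l v m) e.2 := by
      intro e he
      have h2 := hl e he
      by_cases h3 : e.2 = v
      · have h4 : e.1 ≠ v := by
          intro h5
          rw [h3, h5] at h2
          exact lt_irrefl _ h2
        rw [Function.update_of_ne h4, h3, Function.update_self]
        have h5 := hcon e.1 (by rw [← h3]; exact he)
        rw [h3, hv] at h2
        omega
      · rw [Function.update_of_ne h3]
        by_cases h4 : e.1 = v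
        · rw [h4, Function.update_self]
          rw [h4, hv] at h2
          omega
        · rw [Function.update_of_ne h4]
          exact h2
    have h2 := hmin _ h1
    have h3 : ∑ w, (Function.update l v m) w < ∑ w, l w := by
      apply Finset.sum_lt_sum
      · intro w _
        by_cases h4 : w = v
        · rw [h4, Function.update_self]
          omega
        · rw [Function.update_of_ne h4]
      · exact ⟨v, Finset.mem_univ _, by rw [Function.update_self]; omega⟩
    omega
  -- reachability raises levels
  have hreach : ∀ x y, Relation.ReflTransGen (fun a b => (a, b) ∈ A) x y → x = y ∨ l x < l y := by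
    intro x y hxy
    induction hxy with
    | refl => exact Or.inl rfl
    | tail _ hbc ih =>
      right
      have := hl _ hbc
      rcases ih with ih | ih
      · rw [ih]; exact this
      · exact lt_trans ih this
  -- arcs outside A go down by at least two levels
  have hout : ∀ u v, D u v → (u, v) ∉ A → l v + 2 ≤ l u := by
    intro u v huv hn
    have hne : u ≠ v := fun h => (G.ne_of_adj (hD.1 u v huv)) h
    have hr : Relation.ReflTransGen (fun a b => (a, b) ∈ A) v u := by
      by_contra hcon
      -- then A ∪ {(u,v)} is acyclic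
      have h1 : insert (u, v) A ∈ S := by
        simp only [S, Finset.mem_filter, Finset.mem_univ, true_and]
        refine ⟨?_, ?_⟩
        · intro e he
          rcases Finset.mem_insert.mp he with rfl | he
          · exact huv
          · exact hAD e he
        · refine ⟨fun w => if Relation.ReflTransGen (fun a b => (a, b) ∈ A) v w
            then l w + (l u + 1) else l w, ?_⟩
          intro e he
          rcases Finset.mem_insert.mp he with rfl | he
          · simp only
            rw [if_neg hcon, if_pos Relation.ReflTransGen.refl]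
            omega
          · have h2 := hl e he
            by_cases h3 : Relation.ReflTransGen (fun a b => (a, b) ∈ A) v e.1
            · have h4 : Relation.ReflTransGen (fun a b => (a, b) ∈ A) v e.2 :=
                h3.tail (by simpa using he)
              simp only
              rw [if_pos h3, if_pos h4]
              omega
            · simp only
              rw [if_neg h3]
              split_ifs <;> omega
      have h2 := hmax _ h1
      rw [Finset.card_insert_of_notMem hn] at h2
      omega
    rcases Relation.ReflTransGen.cases_head hr with h1 | ⟨w, h1, h2⟩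
    · exact absurd h1.symm hne
    · have h3 := hl _ h1
      simp only at h3
      rcases hreach _ _ h2 with h4 | h4
      · exfalso
        rw [h4] at h1
        have h5 := hAD _ h1
        simp only at h5
        rcases hD.2 u v (hD.1 u v huv) with h6 | h6
        · exact h6.2 h5
        · exact h6.2 huv
      · omega
  refine ⟨l, ?_, ?_, ?_⟩
  · intro u v huv heq
    rcases hD.2 u v huv with ⟨h1, _⟩ | ⟨h1, _⟩
    · by_cases h2 : (u, v) ∈ A
      · have := hl _ h2
        simp only at this
        omega
      · have := hout _ _ h1 h2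
        omega
    · by_cases h2 : (v, u) ∈ A
      · have := hl _ h2
        simp only at this
        omega
      · have := hout _ _ h1 h2
        omega
  · intro u v huv heq
    rcases hD.2 u v huv with ⟨h1, _⟩ | ⟨h1, _⟩
    · exact h1
    · exfalso
      by_cases h2 : (v, u) ∈ A
      · have := hl _ h2
        simp only at this
        omega
      · have := hout _ _ h1 h2
        omega
  · intro v m hv
    obtain ⟨u, h1, h2⟩ := hpred v m hv
    exact ⟨u, hAD _ h1, h2⟩

omit [Fintype V] [DecidableEq V] in
/-- Descending chains of levels. -/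
theorem exists_chain (D : V → V → Prop) (l : V → ℕ)
    (hl : ∀ v m, l v = m + 1 → ∃ u, D u v ∧ l u = m) :
    ∀ (n : ℕ) (v : V), l v = n → ∃ s : ℕ → V, s n = v ∧ (∀ j ≤ n, l (s j) = j) ∧
      ∀ j < n, D (s j) (s (j + 1)) := by
  intro n
  induction n with
  | zero =>
    intro v hv
    refine ⟨fun _ => v, rfl, ?_, ?_⟩
    · intro j hj
      simp only
      omega
    · intro j hj
      omega
  | succ n ih =>
    intro v hv
    obtain ⟨u, h1, h2⟩ := hl v n hv
    obtain ⟨s, hs1, hs2, hs3⟩ := ih u h2
    refine ⟨fun j => if j ≤ n then s j else v, ?_, ?_, ?_⟩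
    · simp
    · intro j hj
      simp only
      split_ifs with h3
      · exact hs2 j h3
      · omega
    · intro j hj
      simp only
      by_cases h3 : j + 1 ≤ n
      · rw [if_pos h3, if_pos (by omega)]
        exact hs3 j (by omega)
      · rw [if_neg h3, if_pos (by omega)]
        have : j = n := by omega
        rw [this, hs1]
        exact h1

/-- Main reduction. -/
theorem exists_colouring (G : SimpleGraph V) (D : V → V → Prop) (hD : IsOrientation G D)
    (k : ℕ) (hk : 1 ≤ k)
    (hncol : ¬ ∃ c : V → ℕ, (∀ v, c v + 1 < k) ∧ ∀ u v, G.Adj u v → c u ≠ c v)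
    (huniq : ∀ p q : Fin k → V, IsDirPath D k p → IsDirPath D k q → p = q) :
    ∃ (c : V → ℕ) (s : ℕ → V), (∀ v, c v < k) ∧ (∀ u v, G.Adj u v → c u ≠ c v) ∧
      (∀ j, j < k → c (s j) = j) ∧ (∀ v, c v + 1 = k → v = s (k - 1)) ∧
      (∀ j, j + 1 < k → G.Adj (s j) (s (j + 1))) ∧
      (∀ j, j + 1 < k → ∀ w, G.Adj w (s (j + 1)) → c w = j → w = s j) := by
  obtain ⟨l, hl1, hl2, hl3⟩ := exists_levels G D hD
  have hchain := exists_chain D l hl3
  -- a sequence with correct levels gives a directed path
  have hpath : ∀ t : ℕ → V, ∀ a : ℕ, (∀ j < k, l (t j) = j + a) →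
      (∀ j, j + 1 < k → D (t j) (t (j + 1))) → IsDirPath D k (fun i => t i) := by
    intro t a h1 h2
    refine ⟨?_, ?_⟩
    · intro x y hxy
      have h3 := h1 x x.2
      have h4 := h1 y y.2
      simp only at hxy
      rw [hxy] at h3
      ext
      omega
    · intro i h
      exact h2 i h
  have hlt : ∀ v, l v < k := by
    intro v
    by_contra hcon
    push Not at hcon
    obtain ⟨s, hs1, hs2, hs3⟩ := hchain (l v) v rfl
    have h1 := hpath s 0 (fun j hj => by rw [hs2 j (by omega)]; rfl)
      (fun j hj => hs3 j (by omega))
    have h2 := hpath (fun j => s (j + 1)) 1 (fun j hj => by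
      rw [hs2 (j + 1) (by omega)])
      (fun j hj => hs3 (j + 1) (by omega))
    have h3 := huniq _ _ h1 h2
    have h4 := congrFun h3 ⟨0, hk⟩
    simp only at h4
    have h5 := hs2 0 (by omega)
    have h6 := hs2 1 (by omega)
    rw [h4] at h5
    simp only [zero_add] at h5
    omega
  have htop : ∃ v, l v + 1 = k := by
    by_contra hcon
    push Not at hcon
    apply hncol
    refine ⟨l, ?_, hl1⟩
    intro v
    have h1 := hlt v
    have h2 := hcon v
    omega
  obtain ⟨t, ht⟩ := htop
  obtain ⟨s, hs1, hs2, hs3⟩ := hchain (k - 1) t (by omega)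
  have hsP := hpath s 0 (fun j hj => by rw [hs2 j (by omega)]; rfl) (fun j hj => hs3 j (by omega))
  refine ⟨l, s, hlt, hl1, fun j hj => hs2 j (by omega), ?_, ?_, ?_⟩
  · intro v hv
    obtain ⟨s', hs1', hs2', hs3'⟩ := hchain (k - 1) v (by omega)
    have hsP' := hpath s' 0 (fun j hj => by rw [hs2' j (by omega)]; rfl)
      (fun j hj => hs3' j (by omega))
    have h1 := congrFun (huniq _ _ hsP' hsP) ⟨k - 1, by omega⟩
    simp only at h1
    rw [← h1, hs1']
  · intro j hj
    exact hD.1 _ _ (hs3 j (by omega))
  · intro j hj w hw hwj
    obtain ⟨s', hs1', hs2', hs3'⟩ := hchain j w hwj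
    have hDw : D w (s (j + 1)) := hl2 _ _ hw (by rw [hs2 (j + 1) (by omega), hwj])
    have hP' := hpath (fun i => if i ≤ j then s' i else s i) 0
      (fun i hi => by
        split_ifs with h1
        · rw [hs2' i h1]; rfl
        · rw [hs2 i (by omega)]; rfl)
      (fun i hi => by
        by_cases h1 : i + 1 ≤ j
        · rw [if_pos h1, if_pos (by omega)]
          exact hs3' i (by omega)
        · rw [if_neg h1]
          by_cases h2 : i ≤ j
          · rw [if_pos h2]
            have h3 : i = j := by omega
            rw [h3, hs1']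
            exact hDw
          · rw [if_neg h2]
            exact hs3 i (by omega))
    have h1 := congrFun (huniq _ _ hP' hsP) ⟨j, by omega⟩
    simp only [le_refl, if_true] at h1
    rw [← h1, hs1']

end

end Pool.Q185.GK
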