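import Pool.Agent.Q185.GK.Levels
import Pool.Agent.Q185.GK.Comb

/-!
# The graphs `G_k` have no minimal orientation
-/

namespace Pool.Q185.GK

/-- Adjacency of the graph `G_k`: `Sum.inl i` is the vertex `x_i` of the 7-cycle, and
`Sum.inr (i, a)`, `a : Fin (k - 3)`, are the vertices of the complete graph `G_i`. -/
def gkAdj (k : ℕ) : (ZMod 7 ⊕ ZMod 7 × Fin (k - 3)) → (ZMod 7 ⊕ ZMod 7 × Fin (k - 3)) → Prop
  | Sum.inl i, Sum.inl j => j = i + 1 ∨ i = j + 1
  | Sum.inl j, Sum.inr (i, _) => j = i ∨ j = i + 1 ∨ j = i + 3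
  | Sum.inr (i, _), Sum.inl j => j = i ∨ j = i + 1 ∨ j = i + 3
  | Sum.inr (i, a), Sum.inr (j, b) => i = j ∧ a ≠ b

/-- The graph `G_k` of Hanson and Toft. -/
def Gk (k : ℕ) : SimpleGraph (ZMod 7 ⊕ ZMod 7 × Fin (k - 3)) where
  Adj := gkAdj k
  symm := ⟨by
    rintro (i | ⟨i, a⟩) (j | ⟨j, b⟩) h
    · exact h.symm
    · exact h
    · exact h
    · exact ⟨h.1.symm, h.2.symm⟩⟩
  loopless := ⟨by
    rintro (i | ⟨i, a⟩) h
    · have h1 : i = i + 1 := by
        rcases h with h | h <;> exact h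
      have h2 : (0 : ZMod 7) = 1 := by
        have := congrArg (fun z => z - i) h1
        simpa using this
      exact absurd h2 (by decide)
    · exact h.2 rfl⟩

theorem missing_card {k : ℕ} (c : ZMod 7 ⊕ ZMod 7 × Fin (k - 3) → ℕ) (n : ℕ)
    (hn : ∀ v, c v < n) (hc : ∀ u v, (Gk k).Adj u v → c u ≠ c v) (i : ZMod 7) (F : Finset ℕ)
    (hF : ∀ x ∈ F, x < n ∧ ¬ ∃ a, c (Sum.inr (i, a)) = x) : F.card + (k - 3) ≤ n := by
  have hinj : Function.Injective (fun a : Fin (k - 3) => c (Sum.inr (i, a))) := by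
    intro a b hab
    by_contra hne
    exact hc (Sum.inr (i, a)) (Sum.inr (i, b)) ⟨rfl, hne⟩ hab
  have h1 : Disjoint F (Finset.univ.image (fun a : Fin (k - 3) => c (Sum.inr (i, a)))) := by
    rw [Finset.disjoint_left]
    intro x hx hx2
    rw [Finset.mem_image] at hx2
    obtain ⟨a, _, ha⟩ := hx2
    exact (hF x hx).2 ⟨a, ha⟩
  have h2 : F ∪ (Finset.univ.image (fun a : Fin (k - 3) => c (Sum.inr (i, a)))) ⊆
      Finset.range n := by
    intro x hx
    rw [Finset.mem_union, Finset.mem_image] at hx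
    rw [Finset.mem_range]
    rcases hx with hx | ⟨a, _, ha⟩
    · exact (hF x hx).1
    · rw [← ha]; exact hn _
  have h3 := Finset.card_le_card h2
  rw [Finset.card_union_of_disjoint h1, Finset.card_image_of_injective _ hinj,
    Finset.card_univ, Fintype.card_fin, Finset.card_range] at h3
  exact h3

/-- `G_k` is not `(k - 1)`-colourable. -/
theorem not_colourable (k : ℕ) (hk : 4 ≤ k) :
    ¬ ∃ c : ZMod 7 ⊕ ZMod 7 × Fin (k - 3) → ℕ, (∀ v, c v + 1 < k) ∧
      ∀ u v, (Gk k).Adj u v → c u ≠ c v := by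
  rintro ⟨c, hck, hc⟩
  have h1 : ∀ i : ZMod 7, c (Sum.inl i) ≠ c (Sum.inl (i + 1)) := fun i =>
    hc _ _ (Or.inl rfl)
  have h2 : ∀ i : ZMod 7, c (Sum.inl (i + 3)) = c (Sum.inl i) ∨
      c (Sum.inl (i + 3)) = c (Sum.inl (i + 1)) := by
    intro i
    by_contra hcon
    push Not at hcon
    have h3 := missing_card c (k - 1) (fun v => by have := hck v; omega) hc i
      {c (Sum.inl i), c (Sum.inl (i + 1)), c (Sum.inl (i + 3))} (by
        intro x hx
        simp only [Finset.mem_insert, Finset.mem_singleton] at hx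
        rcases hx with rfl | rfl | rfl
        · refine ⟨by have := hck (Sum.inl i); omega, ?_⟩
          rintro ⟨a, ha⟩
          exact hc (Sum.inr (i, a)) (Sum.inl i) (Or.inl rfl) ha
        · refine ⟨by have := hck (Sum.inl (i + 1)); omega, ?_⟩
          rintro ⟨a, ha⟩
          exact hc (Sum.inr (i, a)) (Sum.inl (i + 1)) (Or.inr (Or.inl rfl)) ha
        · refine ⟨by have := hck (Sum.inl (i + 3)); omega, ?_⟩
          rintro ⟨a, ha⟩
          exact hc (Sum.inr (i, a)) (Sum.inl (i + 3)) (Or.inr (Or.inr rfl)) ha)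
    rw [Finset.card_eq_three.mpr ⟨_, _, _, h1 i, hcon.1.symm, hcon.2.symm, rfl⟩] at h3
    omega
  have e1 : ∀ i j : ZMod 7, i + 1 = j → c (Sum.inl i) ≠ c (Sum.inl j) := by
    intro i j hij
    rw [← hij]; exact h1 i
  have e2 : ∀ i j l : ZMod 7, i + 1 = j → i + 3 = l → c (Sum.inl l) = c (Sum.inl i) ∨
      c (Sum.inl l) = c (Sum.inl j) := by
    intro i j l hij hil
    rw [← hij, ← hil]; exact h2 i
  have a0 := e1 0 1 (by decide)
  have a1 := e1 1 2 (by decide)
  have a2 := e1 2 3 (by decide)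
  have a3 := e1 3 4 (by decide)
  have a4 := e1 4 5 (by decide)
  have a5 := e1 5 6 (by decide)
  have a6 := e1 6 0 (by decide)
  have b0 := e2 0 1 3 (by decide) (by decide)
  have b1 := e2 1 2 4 (by decide) (by decide)
  have b2 := e2 2 3 5 (by decide) (by decide)
  have b3 := e2 3 4 6 (by decide) (by decide)
  have b4 := e2 4 5 0 (by decide) (by decide)
  have b5 := e2 5 6 1 (by decide) (by decide)
  have b6 := e2 6 0 2 (by decide) (by decide)
  clear e1 e2 h1 h2 hck hc
  generalize c (Sum.inl 0) = x0 at *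
  generalize c (Sum.inl 1) = x1 at *
  generalize c (Sum.inl 2) = x2 at *
  generalize c (Sum.inl 3) = x3 at *
  generalize c (Sum.inl 4) = x4 at *
  generalize c (Sum.inl 5) = x5 at *
  generalize c (Sum.inl 6) = x6 at *
  clear c
  grind

/-- Where a vertex lies. -/
def place {k : ℕ} : ZMod 7 ⊕ ZMod 7 × Fin (k - 3) → ZMod 7 ⊕ ZMod 7
  | Sum.inl i => Sum.inl i
  | Sum.inr (i, _) => Sum.inr i

theorem place_inl {k : ℕ} {v : ZMod 7 ⊕ ZMod 7 × Fin (k - 3)} {i : ZMod 7}
    (h : place v = Sum.inl i) : v = Sum.inl i := by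
  rcases v with j | ⟨j, a⟩
  · exact congrArg Sum.inl (Sum.inl.inj h)
  · simp [place] at h

theorem place_inr {k : ℕ} {v : ZMod 7 ⊕ ZMod 7 × Fin (k - 3)} {i : ZMod 7}
    (h : place v = Sum.inr i) : ∃ a, v = Sum.inr (i, a) := by
  rcases v with j | ⟨j, a⟩
  · simp [place] at h
  · have h1 : j = i := Sum.inr.inj h
    exact ⟨a, by rw [h1]⟩

/-- For `k ≥ 4` no orientation of `G_k` contains exactly one directed path on `k` vertices. -/
theorem no_minimal (k : ℕ) (hk : 4 ≤ k)
    (D : (ZMod 7 ⊕ ZMod 7 × Fin (k - 3)) → (ZMod 7 ⊕ ZMod 7 × Fin (k - 3)) → Prop)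
    (hD : IsOrientation (Gk k) D)
    (huniq : ∀ p q : Fin k → (ZMod 7 ⊕ ZMod 7 × Fin (k - 3)),
      IsDirPath D k p → IsDirPath D k q → p = q) : False := by
  obtain ⟨c, s, hck, hc, hcs, htop, hadj, hdown⟩ :=
    exists_colouring (Gk k) D hD k (by omega) (not_colourable k hk) huniq
  refine Config.false hk (X := fun i => c (Sum.inl i))
    (P := fun i j => ∃ a, c (Sum.inr (i, a)) = j) (u := fun j => place (s j)) ?_
  have g0 : ∀ (i : ZMod 7) (a : Fin (k - 3)), (Gk k).Adj (Sum.inr (i, a)) (Sum.inl i) :=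
    fun i a => Or.inl rfl
  have g1 : ∀ (i : ZMod 7) (a : Fin (k - 3)), (Gk k).Adj (Sum.inr (i, a)) (Sum.inl (i + 1)) :=
    fun i a => Or.inr (Or.inl rfl)
  have g3 : ∀ (i : ZMod 7) (a : Fin (k - 3)), (Gk k).Adj (Sum.inr (i, a)) (Sum.inl (i + 3)) :=
    fun i a => Or.inr (Or.inr rfl)
  have gx : ∀ i : ZMod 7, (Gk k).Adj (Sum.inl i) (Sum.inl (i + 1)) := fun i => Or.inl rfl
  constructor
  · exact fun i => hck _
  · exact fun i => hc _ _ (gx i)
  · rintro i ⟨a, ha⟩
    exact hc _ _ (g0 i a) ha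
  · rintro i ⟨a, ha⟩
    exact hc _ _ (g1 i a) ha
  · rintro i ⟨a, ha⟩
    exact hc _ _ (g3 i a) ha
  · intro i a b e d ha hb he hd hab hae hbe hda hdb hde h1 h2 h3
    by_contra h4
    have h5 := missing_card c k hck hc i {a, b, e, d} (by
      intro x hx
      simp only [Finset.mem_insert, Finset.mem_singleton] at hx
      rcases hx with rfl | rfl | rfl | rfl
      · exact ⟨ha, h1⟩
      · exact ⟨hb, h2⟩
      · exact ⟨he, h3⟩
      · exact ⟨hd, h4⟩)
    rw [Finset.card_insert_of_notMem (by simp [hab, hae, hda.symm]),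
      Finset.card_eq_three.mpr ⟨_, _, _, hbe, hdb.symm, hde.symm, rfl⟩] at h5
    omega
  · intro j i hj hu
    have h1 := hcs j hj
    rw [place_inl hu] at h1
    exact h1
  · intro j i hj hu
    obtain ⟨a, ha⟩ := place_inr hu
    have h1 := hcs j hj
    rw [ha] at h1
    exact ⟨a, h1⟩
  · intro i hi
    rw [← htop (Sum.inl i) hi]
    rfl
  · rintro i ⟨a, ha⟩
    rw [← htop (Sum.inr (i, a)) (by omega)]
    rfl
  · intro j i hj hu
    have hs := place_inl hu
    have hd : ∀ w, (Gk k).Adj w (Sum.inl i) → c w = j → place (s j) = place w := by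
      intro w hw hcw
      rw [hdown j hj w (by rw [hs]; exact hw) hcw]
    refine ⟨?_, ?_, ?_, ?_, ?_⟩
    · rintro ⟨a, ha⟩
      exact hd _ (g0 i a) ha
    · rintro ⟨a, ha⟩
      refine hd _ ?_ ha
      have := g1 (i - 1) a
      rwa [sub_add_cancel] at this
    · rintro ⟨a, ha⟩
      refine hd _ ?_ ha
      have := g3 (i - 3) a
      rwa [sub_add_cancel] at this
    · intro h1
      exact hd _ (gx i).symm h1
    · intro h1
      refine hd _ ?_ h1
      have := gx (i - 1)
      rwa [sub_add_cancel] at this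
  · intro j i hj hu
    obtain ⟨a, ha⟩ := place_inr hu
    have h1 := hadj j hj
    rw [ha] at h1
    rcases hs : s j with i' | ⟨i', b⟩
    · rw [hs] at h1
      right
      rcases h1 with h1 | h1 | h1
      · left; rw [h1]; rfl
      · right; left; rw [h1]; rfl
      · right; right; rw [h1]; rfl
    · rw [hs] at h1
      left
      have h2 : i' = i := h1.1
      rw [h2]; rfl

/-- `G` has a minimal orientation (for the parameter `k`): an orientation which contains exactly
one directed path on `k` vertices. -/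
def HasMinimalOrientation {V : Type*} (G : SimpleGraph V) (k : ℕ) : Prop :=
  ∃ D : V → V → Prop, IsOrientation G D ∧ ∃! p : Fin k → V, IsDirPath D k p

end Pool.Q185.GK
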